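import Pool.Agent.Helper8.SE.Sheet

/-! Row KK: weak-star convergence and convergence of the distances give norm convergence. -/

set_option autoImplicit false

open Set Filter Topology

namespace Pool.Agent.Helper84.SE

open Pool.Agent.Helper8.SE

universe u

theorem kk_pj_le {X : Type u} [NormedAddCommGroup X] [NormedSpace ℝ X]
    (g : ℕ → StrongDual ℝ X) (i : ℕ) (f : StrongDual ℝ X) : pj g i f ≤ ‖f - g i‖ := by
  unfold pj
  refine csSup_le ⟨0, 0, by simp, fun j _ => map_zero _, (map_zero f).symm⟩ ?_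
  rintro r ⟨x, hx, h0, rfl⟩
  have h1 : f x = (f - g i) x := by
    change f x = f x - g i x
    rw [h0 i le_rfl, sub_zero]
  rw [h1]
  calc (f - g i) x ≤ ‖(f - g i) x‖ := Real.le_norm_self _
    _ ≤ ‖f - g i‖ * ‖x‖ := (f - g i).le_opNorm x
    _ ≤ ‖f - g i‖ * 1 := mul_le_mul_of_nonneg_left hx (norm_nonneg _)
    _ = ‖f - g i‖ := mul_one _

theorem stKK : ST_HB.{u} → ST_ULT.{u} → ST_KK.{u} := by
  intro hHB _ X _ _ g x hg hx hxd f₀ u hf₀ hu hux hpj
  -- weak-star convergence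
  have hws : ∀ y : X, ‖y‖ ≤ 1 → Tendsto (fun n => u n y) atTop (𝓝 (f₀ y)) := by
    intro y hy
    rw [Metric.tendsto_atTop]
    intro η hη
    obtain ⟨j, hj⟩ := hxd y hy (η / 3) (by linarith)
    obtain ⟨N, hN⟩ := Metric.tendsto_atTop.1 (hux j) (η / 3) (by linarith)
    refine ⟨N, fun n hn => ?_⟩
    have h1 := hN n hn
    rw [Real.dist_eq] at h1 ⊢
    have h2 : |u n (y - x j)| < η / 3 := by
      calc |u n (y - x j)| ≤ ‖u n‖ * ‖y - x j‖ := (u n).le_opNorm _
        _ ≤ 1 * ‖y - x j‖ := mul_le_mul_of_nonneg_right (hu n) (norm_nonneg _)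
        _ < η / 3 := by rwa [one_mul]
    have h3 : |f₀ (y - x j)| < η / 3 := by
      calc |f₀ (y - x j)| ≤ ‖f₀‖ * ‖y - x j‖ := f₀.le_opNorm _
        _ ≤ 1 * ‖y - x j‖ := mul_le_mul_of_nonneg_right hf₀ (norm_nonneg _)
        _ < η / 3 := by rwa [one_mul]
    rw [map_sub] at h2 h3
    rw [abs_lt] at h1 h2 h3 ⊢
    constructor <;> linarith [h1.1, h1.2, h2.1, h2.2, h3.1, h3.2]
  rw [Metric.tendsto_nhds]
  intro ε hε
  by_contra hcon
  rw [not_eventually] at hcon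
  -- an ultrafilter
  set S : Set ℕ := {n | ¬ dist (u n) f₀ < ε} with hS
  have : NeBot (atTop ⊓ 𝓟 S) := frequently_mem_iff_neBot.1 hcon
  let F : Ultrafilter ℕ := Ultrafilter.of (atTop ⊓ 𝓟 S)
  have hF : (F : Filter ℕ) ≤ atTop ⊓ 𝓟 S := Ultrafilter.of_le _
  have hFa : (F : Filter ℕ) ≤ atTop := hF.trans inf_le_left
  have hFS : S ∈ (F : Filter ℕ) := le_principal_iff.1 (hF.trans inf_le_right)
  obtain ⟨i, hi⟩ := hg.exists_dist_lt f₀ (show 0 < ε / 8 by linarith)
  rw [dist_eq_norm] at hi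
  have hpf : pj g i f₀ < ε / 8 := lt_of_le_of_lt (kk_pj_le g i f₀) hi
  have hev : ∀ᶠ n in atTop, pj g i (u n) < ε / 8 := (hpj i).eventually (gt_mem_nhds hpf)
  have hevF : ∀ᶠ n in (F : Filter ℕ), pj g i (u n) < ε / 8 := hFa hev
  choose h hW hh using fun n => hHB X g i (u n)
  set W := Submodule.span ℝ (g '' Set.Iic i) with hWdef
  have : FiniteDimensional ℝ W := FiniteDimensional.span_of_finite ℝ ((Set.finite_Iic i).image g)
  have : ProperSpace W := FiniteDimensional.proper_real W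
  let w : ℕ → W := fun n => ⟨h n, hW n⟩
  have hball : Metric.closedBall (0 : W) (1 + ε) ∈ F.map w := by
    change ∀ᶠ n in (F : Filter ℕ), w n ∈ Metric.closedBall (0 : W) (1 + ε)
    filter_upwards [hevF] with n hn
    change dist (h n) 0 ≤ 1 + ε
    rw [dist_zero_right]
    have h1 : ‖h n‖ ≤ ‖u n‖ + ‖u n - h n‖ := by
      calc ‖h n‖ = ‖u n - (u n - h n)‖ := by rw [sub_sub_cancel]
        _ ≤ ‖u n‖ + ‖u n - h n‖ := norm_sub_le _ _
    linarith [hu n, hh n]
  obtain ⟨hlim, -, hle⟩ := (isCompact_closedBall (0 : W) (1 + ε)).ultrafilter_le_nhds' _ hball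
  have ht : Tendsto w F (𝓝 hlim) := hle
  have ht2 : Tendsto h F (𝓝 (hlim : StrongDual ℝ X)) :=
    (continuous_subtype_val.tendsto hlim).comp ht
  have hlimn : ‖f₀ - (hlim : StrongDual ℝ X)‖ ≤ ε / 8 := by
    refine ContinuousLinearMap.opNorm_le_of_unit_norm (by linarith) fun y hy => ?_
    have t1 : Tendsto (fun n => u n y) F (𝓝 (f₀ y)) := (hws y hy.le).mono_left hFa
    have t2 : Tendsto (fun n => h n y) F (𝓝 ((hlim : StrongDual ℝ X) y)) :=
      (((ContinuousLinearMap.apply ℝ ℝ y).continuous.tendsto _).comp ht2)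
    have t3 : Tendsto (fun n => ‖u n y - h n y‖) F (𝓝 ‖f₀ y - (hlim : StrongDual ℝ X) y‖) :=
      (t1.sub t2).norm
    refine le_of_tendsto t3 ?_
    filter_upwards [hevF] with n hn
    calc ‖u n y - h n y‖ = ‖(u n - h n) y‖ := rfl
      _ ≤ ‖u n - h n‖ * ‖y‖ := (u n - h n).le_opNorm y
      _ = ‖u n - h n‖ := by rw [hy, mul_one]
      _ ≤ ε / 8 := (hh n).trans hn.le
  have hev2 : ∀ᶠ n in (F : Filter ℕ), dist (h n) (hlim : StrongDual ℝ X) < ε / 8 :=
    ht2.eventually (Metric.ball_mem_nhds _ (by linarith))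
  obtain ⟨n, hn1, hn2, hn3⟩ := (hevF.and (hev2.and hFS)).exists
  apply hn3
  rw [dist_eq_norm] at hn2 ⊢
  have e : u n - f₀ = (u n - h n) + (h n - hlim) - (f₀ - hlim) := by abel
  rw [e]
  have a1 := norm_sub_le ((u n - h n) + (h n - (hlim : StrongDual ℝ X)))
    (f₀ - (hlim : StrongDual ℝ X))
  have a2 := norm_add_le (u n - h n) (h n - (hlim : StrongDual ℝ X))
  linarith [hh n]

end Pool.Agent.Helper84.SE
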